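import Pool.Agent.MWGI.StmtsE

set_option autoImplicit false

/-!
# Squad MWGI, row HYB (helper98): the hybrid family
-/

namespace Pool.Agent.MWGI.H98

open Pool.Agent.Helper14_MV Pool.Agent.Helper2_MV Pool.Agent.MVO Pool.Agent.MWL Pool.Agent.MWS
  Pool.Agent.MWH Pool.Agent.MWGI

/-- row HYB -/
theorem hyb : HybStmt := by
  intro n k B B' hF i hi
  obtain ⟨C, hC⟩ : ∃ C : ℕ → List ℕ, C = fun j => if j < i then B' j else B j := ⟨_, rfl⟩
  have hlt : ∀ j, j < i → C j = B' j := by
    intro j hj
    rw [hC]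
    exact if_pos hj
  have hge : ∀ j, i ≤ j → C j = B j := by
    intro j hj
    rw [hC]
    exact if_neg (not_lt.2 hj)
  have hcnt : ∀ c, NS k c → ∀ j ≤ k, (B j).count c = (C j).count c ∨
      (2 ≤ (B j).count c ∧ 2 ≤ (C j).count c) := by
    intro c hc j hj
    by_cases hji : j < i
    · rw [hlt j hji]
      rcases hF.eq c hc j hj with h | ⟨h1, h2, _⟩
      · exact Or.inl h
      · exact Or.inr ⟨h1, h2⟩
    · rw [hge j (not_lt.1 hji)]
      exact Or.inl rfl
  have hok : BlkOk k C := by
    intro j hj c hc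
    by_cases hji : j < i
    · rw [hlt j hji] at hc
      exact hF.ok'.ok j hj c hc
    · rw [hge j (not_lt.1 hji)] at hc
      exact hF.ok.ok j hj c hc
  have hmem : ∀ j ≤ k, ∀ c, (c ∈ C j ↔ c ∈ B j) := by
    intro j hj c
    constructor
    · intro h
      have h1 := List.count_pos_iff.2 h
      rcases hcnt c (hok j hj c h) j hj with h2 | ⟨h2, _⟩
      · exact List.count_pos_iff.1 (by omega)
      · exact List.count_pos_iff.1 (by omega)
    · intro h
      have h1 := List.count_pos_iff.2 h
      rcases hcnt c (hF.ok.ok j hj c h) j hj with h2 | ⟨_, h2⟩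
      · exact List.count_pos_iff.1 (by omega)
      · exact List.count_pos_iff.1 (by omega)
  refine ⟨C, ⟨hok, ?_⟩, hge i le_rfl, pre_congr hlt, suf_congr (fun j h1 _ => hge j h1.le), hmem, ?_⟩
  · intro j hj c hc
    have hN : NS k c := hok j hj c hc
    by_cases h : ∃ j' ≤ k, 2 ≤ (C j').count c
    · obtain ⟨j', hj', h2⟩ := h
      refine h2.trans ?_
      unfold deg
      exact Finset.single_le_sum (f := fun j => (C j).count c) (fun _ _ => Nat.zero_le _)
        (Finset.mem_range.2 (by omega))
    · have h3 : ∀ j' ≤ k, (C j').count c = (B j').count c := by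
        intro j' hj'
        rcases hcnt c hN j' hj' with h4 | ⟨_, h4⟩
        · exact h4.symm
        · exact absurd ⟨j', hj', h4⟩ h
      have h5 : deg k (fun j => (C j).count c) = deg k (fun j => (B j).count c) := by
        unfold deg
        refine Finset.sum_congr rfl fun j' hj' => h3 j' ?_
        have := Finset.mem_range.1 hj'
        omega
      rw [h5]
      exact hF.ok.ml j hj c ((hmem j hj c).1 hc)
  · intro p x a hA
    refine ⟨hA.ik, hA.pk, hA.ip, hA.nx, hA.na, hA.xa, ?_, ?_, ?_, ?_, ?_, ?_⟩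
    · intro j hj
      have h1 := hA.hx j hj
      rcases hcnt x hA.nx j hj with h2 | ⟨_, h2⟩
      · rw [← h2]; exact h1
      · exact Or.inr h2
    · rw [hge i le_rfl]; exact hA.xi
    · intro h
      exact hA.xp ((hmem p hA.pk x).1 h)
    · rw [hge i le_rfl]; exact hA.ai
    · rcases hcnt a hA.na p hA.pk with h2 | ⟨h2, _⟩
      · rw [← h2]; exact hA.ap
      · rw [hA.ap] at h2
        omega
    · intro j hj h1 h2 h3
      exact hA.az j hj h1 h2 ((hmem j hj a).1 h3)

end Pool.Agent.MWGI.H98
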